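import Pool.Agent.H71.PX.Targets
import Pool.Agent.H8.PL.All

set_option autoImplicit false

namespace Pool.Agent.H59.PX.HS

open Pool.Agent.H71.PX Pool.Agent.H69.Sp Pool.Agent.H8.PL

theorem pf_HS (he : T_HE) (ha : T_HA) (em : T_EM) (cm : T_CM) : T_HS := by
  intro π hπ S hS
  obtain ⟨r, Q, U, Hh, Vv, hr, hQ, hgrid⟩ := z_sq S hS
  have hr0 : r ≠ 0 := by omega
  have key : ∀ n : ℕ, 0 < n → (n ∈ S ↔ ∃ t, GridF U Hh Vv (n ^ r) (n ^ r) t) := by
    intro n hn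
    have hp : 0 < n ^ r := Nat.pow_pos hn
    rw [hgrid (n ^ r) (n ^ r) hp hp]
    constructor
    · intro h
      exact ⟨n, h, rfl, rfl⟩
    · rintro ⟨k, hk, h1, _⟩
      have : n = k := Nat.pow_left_injective hr0 h1
      rw [this]
      exact hk
  rcases cm π hπ with hsub | hsub
  · obtain ⟨φ, hv, hb, hs⟩ := he Q U Hh Vv
    obtain ⟨ψ, hv', hb', hs'⟩ := em [true, true, false] π φ hsub hv
    refine ⟨ψ, 2 * r, hv', hb' hb, by omega, fun n hn => ?_⟩
    rw [key n hn, hs', hs]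
    have hp : 0 < n ^ r := Nat.pow_pos hn
    have e : n ^ (2 * r) = (n ^ r) ^ 2 := by rw [← pow_mul, mul_comm]
    constructor
    · rintro ⟨t, ht⟩
      exact ⟨n ^ r, hp, e, t, ht⟩
    · rintro ⟨k, _, h1, t, ht⟩
      rw [e] at h1
      have : n ^ r = k := Nat.pow_left_injective two_ne_zero h1
      rw [this]
      exact ⟨t, ht⟩
  · obtain ⟨φ, hv, hb, hs⟩ := ha Q U Hh Vv
    obtain ⟨ψ, hv', hb', hs'⟩ := em [true, false, true] π φ hsub hv
    refine ⟨ψ, r, hv', hb' hb, hr, fun n hn => ?_⟩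
    rw [key n hn, hs', hs]
    have hp : 0 < n ^ r := Nat.pow_pos hn
    exact ⟨fun h => ⟨hp, h⟩, fun h => h.2⟩

end Pool.Agent.H59.PX.HS
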