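import Pool.Agent.H71.PX.Targets

set_option autoImplicit false

namespace Pool.Agent.H59.PX.RB

open Pool.Agent.H71.PX

theorem pf_RB (ra : T_RA) : T_RB := by
  intro α Q m U Hh Vv n v h I z hz
  obtain ⟨ra1, ra2⟩ := ra α Q m U Hh Vv n v h I z hz
  have irr : ∀ k ≤ v, ¬ m.Lt (n k) (n k) := fun k hk hl =>
    (h.uN (I.num k hk) (I.num k hk)).2.1 hl hl
  have h3 : ∀ i j, i ≤ v → j ≤ v → ∀ a, m.P a (n i) z → m.P a (n j) z → i = j := by
    intro i j hi hj a pi pj
    have e := I.s i hi a z (n j) hz (I.num j hj) pi pj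
    rcases lt_trichotomy i j with hij | hij | hij
    · have hl := I.ord i j hij hj
      rw [e] at hl
      exact absurd hl (irr i hi)
    · exact hij
    · have hl := I.ord j i hij hi
      rw [e] at hl
      exact absurd hl (irr i hi)
  have h2 : ∀ j ≤ v, ∀ a, m.P a (n j) z → ∀ i < j, m.L a (n i) z := by
    intro j hj a pj i hij
    refine ra1 i (by omega) a ?_
    intro l hl pl
    have := h3 l j (by omega) hj a pl pj
    omega
  refine ⟨?_, h2, h3⟩
  intro k hk pk
  by_contra hc
  push Not at hc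
  have nl : ¬ m.L false (n k) z := (h.uP (I.num k hk) hz).1 false pk
  cases k with
  | zero => exact nl ((h.uP (I.num 0 hk) hz).2.2.2.2.2.1 I.zr)
  | succ l =>
    have l1 : m.L false (n l) z := h2 (l + 1) hk false pk l (Nat.lt_succ_self l)
    have l2 : m.L true (n l) z := ra1 l (by omega) true fun i hi => hc i (by omega)
    obtain ⟨r1, r2⟩ := ra2 l (by omega) l1 true
    by_cases hr : m.R true (n l) z
    · exact nl ((h.uP (I.num _ hk) hz).2.2.2.1 (r1.mpr hr))
    · exact nl ((h.uP (I.num _ hk) hz).2.2.1 (r2.mpr ⟨l2, hr⟩))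

end Pool.Agent.H59.PX.RB
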