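import Pool.Agent.H71.PX.Targets

set_option autoImplicit false

namespace Pool.Agent.H59.PX.RC

open Pool.Agent.H71.PX

theorem pf_RC (ra : T_RA) : T_RC := by
  intro α Q m U Hh Vv n v h I z hz
  obtain ⟨ra1, _⟩ := ra α Q m U Hh Vv n v h I z hz
  have hv : m.N (n v) := I.num v le_rfl
  refine ⟨?_, ?_⟩
  · intro a hr k hk pk
    have hl : m.L false (n v) z := h.L1 hv hz ((h.uP hv hz).2.1 a hr)
    obtain ⟨y, hy, hs, hy2⟩ := h.run hv hz hl
    have py : m.P a y z := (hy2 a).1.mpr hr
    have e := I.s k hk a z y hz hy pk py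
    have lt1 : m.Lt (n v) y := (h.uN hv hy).2.2.1 hs
    rw [e] at lt1
    rcases Nat.lt_or_ge k v with hkv | hkv
    · exact (h.uN hv (I.num k hk)).2.1 lt1 (I.ord k v hkv le_rfl)
    · have : k = v := by omega
      subst this
      exact (h.uN hv hv).2.1 lt1 lt1
  · intro hr
    by_contra hc
    push Not at hc
    exact (h.uP hv hz).2.2.2.2.1 hr (ra1 v le_rfl true hc)

end Pool.Agent.H59.PX.RC
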