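import Pool.Agent.H71.PX.Targets

set_option autoImplicit false

namespace Pool.Agent.H59.PX.UQ

open Pool.Agent.H71.PX

theorem pf_UQ (sl : T_SL) : T_UQ := by
  intro α Q m U Hh Vv n v h I w w' hw hw' hs hs'
  have hv : m.N (n v) := I.num v le_rfl
  have ne : ∀ w, m.N w → m.S (n v) w → ∀ k ≤ v, w ≠ n k := by
    intro w hw hs k hk e
    have lt1 : m.Lt (n v) w := (h.uN hv hw).2.2.1 hs
    rw [e] at lt1
    rcases Nat.lt_or_ge k v with hkv | hkv
    · exact (h.uN hv (I.num k hk)).2.1 lt1 (I.ord k v hkv le_rfl)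
    · have : k = v := by omega
      subst this
      exact (h.uN hv hv).2.1 lt1 lt1
  have key : ∀ w w', m.N w → m.N w' → m.S (n v) w → m.S (n v) w' → ¬ m.Lt w' w := by
    intro w w' hw hw' hs hs' hl
    obtain ⟨g, hg, p1, p2, _⟩ := h.gnd hw hw' hl
    have r1 : m.R false (n v) g :=
      ((sl α Q m U Hh Vv n v h I w g hw (ne w hw hs) hg.1).2.1 hg p1).mp hs
    have r2 : m.R true (n v) g :=
      ((sl α Q m U Hh Vv n v h I w' g hw' (ne w' hw' hs') hg.1).1 p2).mp hs'
    exact (h.uP hv hg.1).2.2.2.2.1 r1 ((h.uP hv hg.1).2.1 true r2)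
  by_contra hne
  rcases (h.uN hw hw').1 hne with hl | hl
  · exact key w' w hw' hw hs' hs hl
  · exact key w w' hw hw' hs hs' hl

end Pool.Agent.H59.PX.UQ
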